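import Mathlib

namespace Pool.Agent.H.MP_e7950b_an
open Finset AddMonoidAlgebra

attribute [-simp] LaurentPolynomial.single_eq_C_mul_T

abbrev L := AddMonoidAlgebra ℝ ℤ

noncomputable def T (j : ℤ) : L := single j 1

noncomputable def I (g : ℤ → ℝ) : L →ₗ[ℝ] ℝ :=
  Finsupp.linearCombination ℝ g ∘ₗ (coeffLinearEquiv ℝ).toLinearMap

noncomputable def Iv (k : ℕ) : L := ∑ j ∈ Icc (-(k : ℤ)) k, T j

lemma T_mul (i j : ℤ) : T i * T j = T (i + j) := by simp [T, single_mul_single]

lemma T_zero : T 0 = 1 := rfl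

lemma co_T (j x : ℤ) : (T j).coeff x = if j = x then 1 else 0 := by
  simp [T, Finsupp.single_apply]

lemma co_Tm (j x : ℤ) (p : L) : (T j * p).coeff x = p.coeff (x - j) := by
  simp [T, coeff_single_mul_apply, sub_eq_neg_add]

@[simp] lemma I_single (g : ℤ → ℝ) (j : ℤ) (c : ℝ) : I g (single j c) = c * g j := by simp [I]

@[simp] lemma I_T (g : ℤ → ℝ) (j : ℤ) : I g (T j) = g j := by simp [T]

lemma co_Iv (k : ℕ) (x : ℤ) : (Iv k).coeff x = if |x| ≤ k then 1 else 0 := by
  simp [Iv, co_T, abs_le]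

lemma sm (p : L) (g : ℤ → ℝ) : Summable fun y => p.coeff y * g y :=
  summable_of_ne_finset_zero (s := p.coeff.support) fun y hy => by
    rw [Finsupp.notMem_support_iff.1 hy, zero_mul]

lemma I_eq (g : ℤ → ℝ) (p : L) : I g p = ∑' y, p.coeff y * g y := by
  rw [tsum_eq_sum (s := p.coeff.support) fun y hy => by
    rw [Finsupp.notMem_support_iff.1 hy, zero_mul]]
  simp [I, Finsupp.linearCombination_apply, Finsupp.sum]

lemma I_mul (g : ℤ → ℝ) (p q : L) : I g (p * q) = I (fun y => I (fun z => g (y + z)) q) p := by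
  induction p using AddMonoidAlgebra.induction_linear with
  | zero => simp
  | add a b ha hb => simp [add_mul, ha, hb]
  | single i c =>
    induction q using AddMonoidAlgebra.induction_linear with
    | zero => simp
    | add a b ha hb => simp [mul_add, ha, hb]
    | single j d => simp [single_mul_single, mul_assoc]

lemma co_mul (p q : L) (x : ℤ) : (p * q).coeff x = ∑' y, p.coeff y * q.coeff (x - y) := by
  rw [← I_eq]
  induction p using AddMonoidAlgebra.induction_linear with
  | zero => simp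
  | add a b ha hb => simp [add_mul, ha, hb]
  | single i c => simp [coeff_single_mul_apply, sub_eq_neg_add]

lemma I_mono {g h : ℤ → ℝ} {p : L} (hp : ∀ x, 0 ≤ p.coeff x) (H : ∀ x, g x ≤ h x) :
    I g p ≤ I h p := by
  rw [I_eq, I_eq]
  exact (sm _ _).tsum_le_tsum (fun x => mul_le_mul_of_nonneg_left (H x) (hp x)) (sm _ _)

lemma I_cmul (c : ℝ) (g : ℤ → ℝ) (p : L) : I (fun x => c * g x) p = c * I g p := by
  simp only [I_eq, ← tsum_mul_left, mul_left_comm]

lemma I_addf (g h : ℤ → ℝ) (p : L) : I (fun x => g x + h x) p = I g p + I h p := by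
  simp only [I_eq, mul_add, (sm _ _).tsum_add (sm _ _)]

noncomputable def ms (p : L) : ℝ := I (fun _ => 1) p

lemma I_const (c : ℝ) (p : L) : I (fun _ => c) p = c * ms p := by
  simpa [ms] using I_cmul c (fun _ => 1) p

lemma ms_mul (p q : L) : ms (p * q) = ms p * ms q := by
  rw [ms, I_mul, I_const, mul_comm]; rfl

lemma ms_Iv (k : ℕ) : ms (Iv k) = 2 * k + 1 := by
  have : ((k : ℤ) + 1 + k).toNat = 2 * k + 1 := by omega
  simp [ms, Iv, this]

def Le (p P : L) : Prop := ∀ x, |p.coeff x| ≤ P.coeff x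

lemma Le.nn {p P : L} (h : Le p P) (x : ℤ) : 0 ≤ P.coeff x := (abs_nonneg _).trans (h x)

lemma Le.rf {p : L} (h : ∀ x, 0 ≤ p.coeff x) : Le p p := fun x => (abs_of_nonneg (h x)).le

lemma Le.tr {p q r : L} (h : Le p q) (h' : Le q r) : Le p r :=
  fun x => (h x).trans ((le_abs_self _).trans (h' x))

lemma Le.add {p P q Q : L} (h : Le p P) (h' : Le q Q) : Le (p + q) (P + Q) :=
  fun x => (abs_add_le _ _).trans (add_le_add (h x) (h' x))

lemma Le.neg {p P : L} (h : Le p P) : Le (-p) P := fun x => by simpa using h x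

lemma Le.smul {p P : L} (h : Le p P) {c : ℝ} (hc : 0 ≤ c) : Le (c • p) (c • P) := fun x => by
  simpa [abs_mul, abs_of_nonneg hc] using mul_le_mul_of_nonneg_left (h x) hc

lemma Le.mul {p P q Q : L} (h : Le p P) (h' : Le q Q) : Le (p * q) (P * Q) := fun x => by
  rw [co_mul, co_mul]
  refine (norm_tsum_le_tsum_norm (sm _ _).norm).trans ((sm _ _).norm.tsum_le_tsum (fun y => ?_) (sm _ _))
  rw [Real.norm_eq_abs, abs_mul]
  exact mul_le_mul (h _) (h' _) (abs_nonneg _) (h.nn _)

lemma T_nn (j x : ℤ) : 0 ≤ (T j).coeff x := by rw [co_T]; positivity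

structure SU (P : L) : Prop where
  nn : ∀ x, 0 ≤ P.coeff x
  mono : ∀ x y, |x| ≤ |y| → P.coeff y ≤ P.coeff x

lemma SU.sym {P : L} (h : SU P) (x : ℤ) : P.coeff (-x) = P.coeff x :=
  le_antisymm (h.mono _ _ (by simp)) (h.mono _ _ (by simp))

lemma SU.ab {P : L} (h : SU P) (x : ℤ) : P.coeff |x| = P.coeff x :=
  le_antisymm (h.mono _ _ (by simp)) (h.mono _ _ (by simp))

lemma SU.ms {P : L} (h : SU P) : 0 ≤ ms P := by
  have := I_mono (g := fun _ => 0) (h := fun _ => 1) h.nn (by simp)
  rwa [I_const, zero_mul] at this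

lemma SU_Iv (k : ℕ) : SU (Iv k) :=
  ⟨fun x => by rw [co_Iv]; positivity, fun x y h => by
    rw [co_Iv, co_Iv]; split_ifs <;> first | omega | norm_num⟩

lemma SU_zero : SU 0 := ⟨by simp, by simp⟩

lemma SU_one : SU 1 := by
  have : Iv 0 = 1 := by simp [Iv, T_zero]
  exact this ▸ SU_Iv 0

lemma SU.add {P Q : L} (h : SU P) (h' : SU Q) : SU (P + Q) :=
  ⟨fun x => add_nonneg (h.nn x) (h'.nn x), fun x y H => add_le_add (h.mono x y H) (h'.mono x y H)⟩

lemma SU.smul {P : L} (h : SU P) {c : ℝ} (hc : 0 ≤ c) : SU (c • P) :=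
  ⟨fun x => mul_nonneg hc (h.nn x), fun x y H => mul_le_mul_of_nonneg_left (h.mono x y H) hc⟩

lemma SU.mul {P Q : L} (h : SU P) (h' : SU Q) : SU (P * Q) := by
  have s : ∀ x, (P * Q).coeff (-x) = (P * Q).coeff x := by
    intro x
    rw [co_mul, co_mul, ← (Equiv.neg ℤ).tsum_eq]
    refine tsum_congr fun y => ?_
    rw [Equiv.neg_apply, h.sym, ← h'.sym]; congr 2; ring
  have m : ∀ x, 0 ≤ x → (P * Q).coeff (x + 1) ≤ (P * Q).coeff x := by
    intro x hx
    have e : ∀ a b, a + b = 2 * x + 1 → HasSum (fun y => P.coeff (2 * x + 1 - y) * Q.coeff (a - y))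
        ((P * Q).coeff b) := by
      intro a b hab
      rw [co_mul]
      convert (Equiv.subLeft (2 * x + 1)).hasSum_iff.2 (sm P fun y => Q.coeff (b - y)).hasSum with y
      simp only [Function.comp, Equiv.subLeft_apply]
      rw [← h'.sym]; congr 2; omega
    have f : ∀ a, HasSum (fun y => P.coeff y * Q.coeff (a - y)) ((P * Q).coeff a) := fun a => by
      rw [co_mul]; exact (sm _ _).hasSum
    have := hasSum_le (fun y => ?_) ((f (x + 1)).add (e x (x + 1) (by ring)))
      ((f x).add (e (x + 1) x (by ring)))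
    · linarith
    rcases le_or_gt y x with H | H
    · have a := h.mono y (2 * x + 1 - y) (by rw [abs_le, abs_of_nonneg (by omega)]; omega)
      have b := h'.mono (x - y) (x + 1 - y) (by rw [abs_le, abs_of_nonneg (by omega)]; omega)
      nlinarith
    · have a := h.mono (2 * x + 1 - y) y (by rw [abs_le, abs_of_nonneg (by omega)]; omega)
      have b := h'.mono (x + 1 - y) (x - y) (by rw [abs_le, abs_of_nonpos (by omega)]; omega)
      nlinarith
  have a : ∀ x, (P * Q).coeff |x| = (P * Q).coeff x := fun x => by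
    rcases abs_choice x with e | e <;> rw [e]; exact s x
  refine ⟨((Le.rf h.nn).mul (Le.rf h'.nn)).nn, fun x y H => ?_⟩
  rw [← a x, ← a y]
  generalize |y| = z at H
  induction z, H using Int.leInduction with
  | base => rfl
  | succ n hn ih => exact (m n ((abs_nonneg x).trans hn)).trans ih

lemma SU.ind {Q : L → Prop} (h0 : Q 0) (hs : ∀ b : ℝ, 0 ≤ b → ∀ l p, Q p → Q (b • Iv l + p))
    {P : L} (h : SU P) : Q P := by
  obtain ⟨N, hN⟩ : ∃ N : ℕ, P.coeff N = 0 := by
    obtain ⟨N, hN⟩ := Infinite.exists_notMem_finset (P.coeff.support.image Int.toNat)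
    exact ⟨N, by_contra fun h' => hN (mem_image.2 ⟨N, Finsupp.mem_support_iff.2 h', by simp⟩)⟩
  have e : ∀ n : ℕ, ∀ x, (∑ l ∈ range n, (P.coeff l - P.coeff (l + 1)) • Iv l).coeff x =
      if |x| ≤ n then P.coeff x - P.coeff n else 0 := by
    intro n x
    induction n with
    | zero => simp; rintro rfl; simp
    | succ n ih =>
      rw [sum_range_succ, coeff_add, Finsupp.add_apply, ih, coeff_smul, Finsupp.smul_apply, co_Iv]
      push_cast
      split_ifs with a b b
      · simp
      · omega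
      · rw [← h.ab x, show |x| = n + 1 by omega]; simp
      · simp
  have e2 : P = ∑ l ∈ range N, (P.coeff l - P.coeff (l + 1)) • Iv l := by
    ext x
    rw [e, hN, sub_zero]
    split_ifs with a
    · rfl
    · exact le_antisymm (hN ▸ h.mono N x (by rw [Nat.abs_cast]; omega)) (h.nn x)
  rw [e2]
  generalize N = n
  induction n with
  | zero => simpa
  | succ n ih =>
    rw [sum_range_succ, add_comm]
    exact hs _ (sub_nonneg.2 (h.mono _ _ (by rw [Nat.abs_cast, abs_of_nonneg] <;> omega))) _ _ ih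

end Pool.Agent.H.MP_e7950b_an
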