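import Pool.Agent.H.MP_e7950b_an.A

namespace Pool.Agent.H.MP_e7950b_an
open Finset AddMonoidAlgebra

attribute [-simp] LaurentPolynomial.single_eq_C_mul_T

noncomputable def U (k : ℕ) : L := (1 / (2 * k + 1) : ℝ) • Iv k

noncomputable def v (k : ℕ) : ℝ := k * (k + 1) / 3

noncomputable def D : L →ₗ[ℝ] L :=
  Finsupp.linearCombination ℝ (fun j : ℤ => (j : ℝ) • T j) ∘ₗ (coeffLinearEquiv ℝ).toLinearMap

@[simp] lemma D_single (j : ℤ) (c : ℝ) : D (single j c) = single j (c * j) := by simp [D, T]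

lemma D_mul (p q : L) : D (p * q) = D p * q + p * D q := by
  induction p using AddMonoidAlgebra.induction_linear with
  | zero => simp
  | add a b ha hb => simp only [add_mul, map_add, ha, hb]; ring
  | single i c =>
    induction q using AddMonoidAlgebra.induction_linear with
    | zero => simp
    | add a b ha hb => simp only [mul_add, map_add, ha, hb]; ring
    | single j d =>
      simp only [single_mul_single, D_single, ← single_add]
      congr 1; push_cast; ring

lemma I_D (g : ℤ → ℝ) (p : L) : I g (D p) = I (fun x => x * g x) p := by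
  induction p using AddMonoidAlgebra.induction_linear with
  | zero => simp
  | add a b ha hb => simp [ha, hb]
  | single i c => simp [mul_assoc]

lemma Iv_succ (k : ℕ) : Iv (k + 1) = Iv k + (T (k + 1) + T (-(k + 1))) := by
  ext x
  simp only [coeff_add, Finsupp.add_apply, co_Iv, co_T, abs_le]
  push_cast
  split_ifs <;> first | omega | norm_num

lemma I_Iv (g : ℤ → ℝ) (k : ℕ) :
    I g (Iv k) = g 0 + ∑ j ∈ range k, (g (j + 1) + g (-(j + 1))) := by
  induction k with
  | zero => simp [Iv]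
  | succ k ih => rw [Iv_succ, sum_range_succ, map_add, map_add, ih]; simp [add_assoc]

lemma sq_sum (k : ℕ) : ∑ j ∈ range k, 2 * ((j : ℝ) + 1) ^ 2 = (2 * k + 1) * v k := by
  induction k with
  | zero => simp [v]
  | succ k ih => rw [sum_range_succ, ih, v, v]; push_cast; ring

lemma I_ind (s : Finset ℤ) (B : L) : I (fun z => if z ∈ s then 1 else 0) B = ∑ z ∈ s, B.coeff z := by
  rw [I_eq, tsum_eq_sum (s := s) fun z hz => by simp [hz]]
  exact sum_congr rfl fun z hz => by simp [hz]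

lemma avg {B : L} (h : SU B) {y k : ℕ} (hy : y ≤ k) :
    2 * y * ∑ z ∈ Icc (-(k : ℤ)) k, B.coeff z ≤ (2 * k + 1) * ∑ z ∈ Icc (1 - (y : ℤ)) y, B.coeff z := by
  have hs : Icc (1 - (y : ℤ)) y ⊆ Icc (-(k : ℤ)) k := Icc_subset_Icc (by omega) (by omega)
  have a1 := card_nsmul_le_sum (Icc (1 - (y : ℤ)) y) B.coeff (B.coeff y) fun z hz =>
    h.mono _ _ (by rw [mem_Icc] at hz; rw [Nat.abs_cast, abs_le]; omega)
  have a2 := sum_le_card_nsmul (Icc (-(k : ℤ)) k \ Icc (1 - (y : ℤ)) y) B.coeff (B.coeff y)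
    fun z hz => h.mono _ _ (by
      simp only [mem_sdiff, mem_Icc] at hz; rw [Nat.abs_cast, le_abs]; omega)
  have c1 : (Icc (1 - (y : ℤ)) y).card = 2 * y := by simp; omega
  have c2 : (Icc (-(k : ℤ)) k).card = 2 * k + 1 := by simp; omega
  rw [card_sdiff_of_subset hs, c1, c2, nsmul_eq_mul, Nat.cast_sub (by omega)] at a2
  rw [c1, nsmul_eq_mul] at a1
  rw [← sum_sdiff hs]
  push_cast at a1 a2
  have : (y : ℝ) ≤ k := by exact_mod_cast hy
  nlinarith [mul_le_mul_of_nonneg_left a1 (by linarith : (0 : ℝ) ≤ 2 * k + 1 - 2 * y),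
    mul_le_mul_of_nonneg_left a2 (by positivity : (0 : ℝ) ≤ 2 * y)]

noncomputable def hh (x : ℤ) : ℝ := if 1 ≤ x then 1 else 0

structure PU (A : L) (S : ℝ) : Prop where
  su : SU A
  S0 : 0 ≤ S
  m0 : ms A = 1
  m1 : ms (D A) = 0
  m2 : ms (D (D A)) = S
  st : ∀ B, SU B → S * (A * B).coeff 0 ≤ I hh (D A * B)

lemma ms_add (p q : L) : ms (p + q) = ms p + ms q := map_add (I _) p q

lemma ms_smul (c : ℝ) (p : L) : ms (c • p) = c * ms p := map_smul (I _) c p

lemma PU.mul {A B : L} {S R : ℝ} (h : PU A S) (g : PU B R) : PU (A * B) (S + R) := by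
  refine ⟨h.su.mul g.su, add_nonneg h.S0 g.S0, by rw [ms_mul, h.m0, g.m0, one_mul], ?_, ?_,
    fun C hC => ?_⟩
  · simp [D_mul, ms_add, ms_mul, h.m1, g.m1]
  · simp [D_mul, ms_add, ms_mul, h.m1, g.m1, h.m0, g.m0, h.m2, g.m2]
  · have a := h.st _ (g.su.mul hC)
    have b := g.st _ (h.su.mul hC)
    rw [D_mul, add_mul, add_mul, map_add, mul_assoc A, mul_assoc (D A), mul_comm A (D B),
      mul_assoc (D B)]
    rw [mul_left_comm B] at b
    linarith

lemma PU_one : PU 1 0 := by
  have : D 1 = 0 := by simp [one_def]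
  exact ⟨SU_one, le_rfl, by simp [ms, ← T_zero], by simp [ms, this], by simp [ms, this],
    by simp [this]⟩

lemma v_nn (k : ℕ) : 0 ≤ v k := by unfold v; positivity

lemma PU_U (k : ℕ) : PU (U k) (v k) := by
  have n0 : (0 : ℝ) < 2 * k + 1 := by positivity
  refine ⟨(SU_Iv k).smul (by positivity), v_nn k, ?_, ?_, ?_, fun B hB => ?_⟩
  · rw [U, ms_smul, ms_Iv]; field_simp
  · simp [U, ms, I_D, I_Iv]
  · simp only [U, ms, I_D, I_Iv, map_smul, smul_eq_mul]
    rw [sum_congr (g := fun j : ℕ => 2 * ((j : ℝ) + 1) ^ 2) rfl fun j _ => by push_cast; ring, sq_sum]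
    simp; field_simp
  · have e1 : (Iv k * B).coeff 0 = ∑ z ∈ Icc (-(k : ℤ)) k, B.coeff z := by
      simp [Iv, sum_mul, co_Tm, hB.sym]
    have e2 : ∀ j ∈ range k, 2 * ((j : ℝ) + 1) ^ 2 * ((∑ z ∈ Icc (-(k : ℤ)) k, B.coeff z) / (2 * k + 1))
        ≤ ((j + 1 : ℤ) : ℝ) * I (fun z => hh (j + 1 + z)) B +
          ((-(j + 1) : ℤ) : ℝ) * I (fun z => hh (-(j + 1) + z)) B := by
      intro j hj
      have a := avg hB (y := j + 1) (k := k) (mem_range.1 hj)
      have b : I (fun z => hh (j + 1 + z)) B = I (fun z => hh (-(j + 1) + z)) B +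
          ∑ z ∈ Icc (1 - ((j + 1 : ℕ) : ℤ)) (j + 1 : ℕ), B.coeff z := by
        rw [← I_ind, ← I_addf]
        congr 2
        funext z
        simp only [hh, mem_Icc]
        split_ifs <;> first | omega | norm_num
      rw [b, ← mul_div_assoc, div_le_iff₀ n0]
      push_cast at a ⊢
      nlinarith [mul_le_mul_of_nonneg_left a (by positivity : (0 : ℝ) ≤ j + 1)]
    have e3 := sum_le_sum e2
    rw [← sum_mul, sq_sum] at e3
    simp only [U, map_smul, smul_mul_assoc, coeff_smul, Finsupp.smul_apply, smul_eq_mul, I_mul, I_D,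
      I_Iv, e1, Int.cast_zero, zero_mul, zero_add]
    rw [mul_left_comm]
    refine mul_le_mul_of_nonneg_left (le_trans (le_of_eq ?_) e3) (by positivity)
    field_simp

lemma PU_prod {ι : Type*} (s : Finset ι) (κ : ι → ℕ) : PU (∏ i ∈ s, U (κ i)) (∑ i ∈ s, v (κ i)) := by
  classical
  induction s using Finset.induction_on with
  | empty => simpa using PU_one
  | insert a s ha ih => rw [prod_insert ha, sum_insert ha]; exact (PU_U _).mul ih

lemma PU.bd {A : L} {S : ℝ} (h : PU A S) : A.coeff 0 ^ 2 * S ≤ 1 := by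
  rcases (h.su.nn 0).eq_or_lt with e | e
  · simp [← e]
  have a := h.st 1 SU_one
  have b := h.m2
  rw [ms, I_D, I_D] at b
  rw [mul_one, mul_one, I_D] at a
  have c := I_mono (g := fun x => x * hh x)
    (h := fun x => A.coeff 0 / 2 * (x * (x * 1)) + 1 / (2 * A.coeff 0)) h.su.nn fun x => by
      have e1 : A.coeff 0 / 2 * ((x : ℝ) * (x * 1)) + 1 / (2 * A.coeff 0) - x =
          (A.coeff 0 * x - 1) ^ 2 / (2 * A.coeff 0) := by field_simp; ring
      have e2 : 0 ≤ (A.coeff 0 * x - 1) ^ 2 / (2 * A.coeff 0) := by positivity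
      simp only [hh]
      split_ifs
      · linarith
      · have := mul_self_nonneg (x : ℝ)
        simp only [mul_one, mul_zero]; positivity
  rw [I_addf, I_cmul, b, I_const, h.m0] at c
  have d := mul_le_mul_of_nonneg_left (a.trans c) e.le
  have : A.coeff 0 * (1 / (2 * A.coeff 0)) = 1 / 2 := by field_simp
  nlinarith

end Pool.Agent.H.MP_e7950b_an
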