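import Pool.Agent.H.MP_e7950b_an.B

namespace Pool.Agent.H.MP_e7950b_an
open Finset AddMonoidAlgebra

attribute [-simp] LaurentPolynomial.single_eq_C_mul_T

def Maj (p : L) (C : ℝ) : Prop := ∃ Ψ, SU Ψ ∧ Le p Ψ ∧ ms Ψ ≤ C

lemma Maj.add {p q : L} {C E : ℝ} (h : Maj p C) (g : Maj q E) : Maj (p + q) (C + E) := by
  obtain ⟨P, a, b, c⟩ := h
  obtain ⟨Q, d, e, f⟩ := g
  exact ⟨P + Q, a.add d, b.add e, by rw [ms_add]; linarith⟩

lemma Maj.smul {p : L} {C c : ℝ} (h : Maj p C) (hc : 0 ≤ c) : Maj (c • p) (c * C) := by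
  obtain ⟨P, a, b, d⟩ := h
  exact ⟨c • P, a.smul hc, b.smul hc, by rw [ms_smul]; gcongr⟩

lemma Maj.mul {p q : L} {C E : ℝ} (h : Maj p C) (g : Maj q E) : Maj (p * q) (C * E) := by
  obtain ⟨P, a, b, c⟩ := h
  obtain ⟨Q, d, e, f⟩ := g
  exact ⟨P * Q, a.mul d, b.mul e, by rw [ms_mul]; exact mul_le_mul c f d.ms (a.ms.trans c)⟩

lemma Maj.mono {p : L} {C E : ℝ} (h : Maj p C) (g : C ≤ E) : Maj p E := by
  obtain ⟨P, a, b, c⟩ := h
  exact ⟨P, a, b, c.trans g⟩

lemma Maj.le {p q : L} {C : ℝ} (h : Maj p C) (g : Le q p) : Maj q C := by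
  obtain ⟨P, a, b, c⟩ := h
  exact ⟨P, a, g.tr b, c⟩

lemma Maj.neg {p : L} {C : ℝ} (h : Maj p C) : Maj (-p) C := by
  obtain ⟨P, a, b, c⟩ := h
  exact ⟨P, a, b.neg, c⟩

lemma SU.maj {p : L} (h : SU p) : Maj p (MP_e7950b_an.ms p) := ⟨p, h, Le.rf h.nn, le_rfl⟩

lemma Maj_zero : Maj 0 0 := by simpa [ms] using SU_zero.maj

lemma Maj_sum {ι : Type*} (s : Finset ι) {p : ι → L} {C : ι → ℝ} (h : ∀ i ∈ s, Maj (p i) (C i)) :
    Maj (∑ i ∈ s, p i) (∑ i ∈ s, C i) := by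
  classical
  induction s using Finset.induction_on with
  | empty => simpa using Maj_zero
  | insert a s ha ih =>
    rw [sum_insert ha, sum_insert ha]
    exact (h a (by simp)).add (ih fun i hi => h i (by simp [hi]))

lemma Maj.pow {p : L} {C : ℝ} (h : Maj p C) (n : ℕ) : Maj (p ^ n) (C ^ n) := by
  induction n with
  | zero => simpa [PU_one.m0] using SU_one.maj
  | succ n ih => rw [pow_succ, pow_succ]; exact ih.mul h

noncomputable def W (t : ℝ) : L →ₗ[ℝ] ℝ := I fun x => 1 + t * |(x : ℝ)|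

lemma W_T (t : ℝ) (j : ℤ) : W t (T j) = 1 + t * |(j : ℝ)| := I_T _ _

lemma W_nn {t : ℝ} (ht : 0 ≤ t) {P : L} (hP : ∀ x, 0 ≤ P.coeff x) : 0 ≤ W t P := by
  have := I_mono (g := fun _ => 0) (h := fun x => 1 + t * |(x : ℝ)|) hP fun x => by positivity
  rwa [I_const, zero_mul] at this

lemma W_mul {t : ℝ} (ht : 0 ≤ t) {P Q : L} (hP : ∀ x, 0 ≤ P.coeff x) (hQ : ∀ x, 0 ≤ Q.coeff x)
    {a b : ℝ} (ha : W t P ≤ a) (hb : W t Q ≤ b) : W t (P * Q) ≤ a * b := by
  refine le_trans ?_ (mul_le_mul ha hb (W_nn ht hQ) ((W_nn ht hP).trans ha))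
  rw [W, I_mul, mul_comm, ← I_cmul]
  refine I_mono hP fun y => ?_
  rw [mul_comm, ← I_cmul]
  refine I_mono hQ fun z => ?_
  push_cast
  have := mul_le_mul_of_nonneg_left (abs_add_le (y : ℝ) z) ht
  have : 0 ≤ t * |(y : ℝ)| * (t * |(z : ℝ)|) := by positivity
  nlinarith

lemma delta {t : ℝ} {A : L} (h : SU A) :
    ∃ V, Le ((1 - T 1) * A) V ∧ W t V = 2 * A.coeff 0 + t * ms A := by
  refine h.ind (Q := fun A => ∃ V, Le ((1 - T 1) * A) V ∧ W t V = 2 * A.coeff 0 + t * ms A)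
    ⟨0, by simp [Le], by simp [ms]⟩ ?_
  rintro b hb l p ⟨V, h1, h2⟩
  refine ⟨b • (T (-l) + T (l + 1)) + V, ?_, ?_⟩
  · rw [mul_add, mul_smul_comm]
    refine (Le.smul (fun x => ?_) hb).add h1
    simp only [sub_mul, one_mul, coeff_sub, coeff_add, Finsupp.sub_apply, Finsupp.add_apply, co_Tm,
      co_Iv, co_T, abs_le (b := (l : ℤ))]
    split_ifs <;> first | omega | norm_num
  · simp only [map_add, map_smul, W_T, h2, ms_add, ms_smul, ms_Iv, coeff_add, coeff_smul,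
      Finsupp.add_apply, Finsupp.smul_apply, co_Iv, smul_eq_mul]
    push_cast
    rw [abs_neg, abs_of_nonneg (by positivity), abs_of_nonneg (by positivity)]
    simp
    ring

lemma shift {R : L} (h : SU R) (y : ℤ) : Maj (T y * R) (ms R + 2 * R.coeff 0 * |(y : ℝ)|) := by
  refine h.ind (Q := fun R => Maj (T y * R) (ms R + 2 * R.coeff 0 * |(y : ℝ)|))
    (by simpa [ms] using Maj_zero) fun b hb l p hp => ?_
  have : Maj (T y * Iv l) (ms (Iv (l + y.natAbs))) := (SU_Iv _).maj.le fun x => by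
    simp only [co_Tm, co_Iv, abs_le (b := (l : ℤ)), abs_le (b := ((l + y.natAbs : ℕ) : ℤ))]
    split_ifs <;> first | omega | norm_num
  rw [mul_add, mul_smul_comm]
  refine ((this.smul hb).add hp).mono (le_of_eq ?_)
  simp only [ms_add, ms_smul, ms_Iv, coeff_add, coeff_smul,
    Finsupp.add_apply, Finsupp.smul_apply, co_Iv, smul_eq_mul]
  simp
  ring

lemma smooth {V R : L} (hV : ∀ x, 0 ≤ V.coeff x) (h : SU R) (h1 : ms R = 1) :
    Maj (V * R) (W (2 * R.coeff 0) V) := by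
  have e : V = ∑ y ∈ V.coeff.support, V.coeff y • T y := by
    conv_lhs => rw [← sum_coeff_single V]
    simp [Finsupp.sum, T]
  rw [e, sum_mul, map_sum]
  refine Maj_sum _ fun y _ => ?_
  rw [smul_mul_assoc, map_smul, W_T, ← h1]
  exact (shift h y).smul (hV y)

noncomputable def G (j : ℕ) : L := ∑ i ∈ range j, T i

noncomputable def Y (k : ℕ) : L := ∑ j ∈ range k, T (-(j + 1)) * (G (j + 1) * G (j + 1))

lemma G_mul (j : ℕ) : G j * (1 - T 1) = 1 - T j := by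
  induction j with
  | zero => simp [G, T_zero]
  | succ j ih =>
    rw [G, sum_range_succ, add_mul, ← G, ih, mul_sub, T_mul]; push_cast; ring

lemma Y_mul (k : ℕ) : Y k * ((1 - T 1) * (1 - T 1)) = Iv k - (2 * k + 1 : ℝ) • 1 := by
  induction k with
  | zero => simp [Y, Iv, T_zero]
  | succ k ih =>
    have a := G_mul (k + 1)
    have b := T_mul (-(k + 1)) (k + 1)
    rw [neg_add_cancel, T_zero] at b
    have c : (2 * ((k + 1 : ℕ) : ℝ) + 1) • (1 : L) = (2 * k + 1 : ℝ) • 1 + 1 + 1 := by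
      push_cast; module
    rw [Y, sum_range_succ, add_mul, ← Y, ih, Iv_succ, c]
    push_cast at a
    linear_combination (T (-(k + 1)) * (G (k + 1) * (1 - T 1) + 1 - T (k + 1))) * a +
      (T (k + 1) - 2) * b

lemma G_nn (j : ℕ) (x : ℤ) : 0 ≤ (G j).coeff x := by
  simp only [G, coeff_sum, Finsupp.finsetSum_apply]
  exact sum_nonneg fun i _ => T_nn _ _

lemma nn_mul {P Q : L} (hP : ∀ x, 0 ≤ P.coeff x) (hQ : ∀ x, 0 ≤ Q.coeff x) :
    ∀ x, 0 ≤ (P * Q).coeff x := ((Le.rf hP).mul (Le.rf hQ)).nn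

lemma Y_nn (k : ℕ) (x : ℤ) : 0 ≤ (Y k).coeff x := by
  simp only [Y, coeff_sum, Finsupp.finsetSum_apply]
  exact sum_nonneg fun i _ => nn_mul (T_nn _) (nn_mul (G_nn _) (G_nn _)) x

lemma W_Y {t : ℝ} (ht : 0 ≤ t) (k : ℕ) (hk : t * k ≤ 4) : W t (Y k) ≤ k * (125 * k ^ 2) := by
  rw [Y, map_sum]
  refine (sum_le_card_nsmul _ _ (125 * k ^ 2 : ℝ) fun j hj => ?_).trans (by simp)
  have hj' : (j : ℝ) + 1 ≤ k := by exact_mod_cast mem_range.1 hj
  have a : W t (G (j + 1)) ≤ k * 5 := by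
    rw [G, map_sum]
    refine (sum_le_card_nsmul _ _ (5 : ℝ) fun i hi => ?_).trans (by simp; linarith)
    have : (i : ℝ) < j + 1 := by exact_mod_cast mem_range.1 hi
    rw [W_T]; simp; nlinarith
  have b : W t (T (-(j + 1))) ≤ 5 := by
    rw [W_T]; push_cast; rw [abs_neg, abs_of_nonneg (by positivity)]; nlinarith
  exact (W_mul ht (T_nn _) (nn_mul (G_nn _) (G_nn _)) b (W_mul ht (G_nn _) (G_nn _) a a)).trans
    (le_of_eq (by ring))

lemma PU.bd2 {A : L} {a : ℝ} (h : PU A a) {k : ℕ} (hk : 0 < k) (ha : v k ≤ a) :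
    (k * A.coeff 0) ^ 2 ≤ 6 * (v k / (v k + a)) ∧ A.coeff 0 * k ≤ 2 := by
  have k1 : (1 : ℝ) ≤ k := by exact_mod_cast hk
  have v1 : (k : ℝ) ^ 2 ≤ 3 * v k := by unfold v; nlinarith
  have v0 : 0 < v k := by nlinarith
  have b := h.bd
  have c := mul_le_mul_of_nonneg_left ha (sq_nonneg (A.coeff 0))
  have d := mul_le_mul_of_nonneg_left v1 (sq_nonneg (A.coeff 0))
  constructor
  · rw [← mul_div_assoc, le_div_iff₀ (by linarith)]
    have := mul_le_mul_of_nonneg_right v1 (by nlinarith : 0 ≤ A.coeff 0 ^ 2 * (v k + a))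
    nlinarith
  · exact le_of_sq_le_sq (by nlinarith) (by norm_num)

lemma det {A B R : L} {a b r : ℝ} (hA : PU A a) (hB : PU B b) (hR : PU R r) (k : ℕ) :
    Maj ((1 - U k) * (A * B * R))
      (6000 * (v k / (v k + a) + v k / (v k + b) + v k / (v k + r))) := by
  rcases k.eq_zero_or_pos with rfl | hk
  · simpa [U, Iv, T_zero, v] using Maj_zero
  have k1 : (1 : ℝ) ≤ k := by exact_mod_cast hk
  have v0 : 0 < v k := by unfold v; positivity
  have q : ∀ c, 0 ≤ c → 0 ≤ v k / (v k + c) ∧ (c ≤ v k → 1 / 2 ≤ v k / (v k + c)) := fun c hc =>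
    ⟨by positivity, fun h => by rw [le_div_iff₀ (by positivity)]; linarith⟩
  have qa := q a hA.S0
  have qb := q b hB.S0
  have qr := q r hR.S0
  by_cases H : v k ≤ a ∧ v k ≤ b ∧ v k ≤ r
  · have ba := hA.bd2 hk H.1
    have bb := hB.bd2 hk H.2.1
    have br := hR.bd2 hk H.2.2
    have a0 := hA.su.nn 0
    have b0 := hB.su.nn 0
    have r0 := hR.su.nn 0
    obtain ⟨V1, a1, a2⟩ := delta (t := 2 * R.coeff 0) hA.su
    obtain ⟨V2, b1, b2⟩ := delta (t := 2 * R.coeff 0) hB.su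
    have e : (1 - U k) * (A * B * R) =
        -((1 / (2 * k + 1) : ℝ) • (Y k * ((1 - T 1) * A * ((1 - T 1) * B)) * R)) := by
      have : 1 - U k = -((1 / (2 * k + 1) : ℝ) • (Y k * ((1 - T 1) * (1 - T 1)))) := by
        rw [Y_mul, smul_sub, smul_smul, U, one_div_mul_cancel (by positivity)]; simp
      rw [this, neg_mul, smul_mul_assoc]
      congr 2; ring
    have m := ((smooth (nn_mul (Y_nn k) (nn_mul a1.nn b1.nn)) hR.su hR.m0).le
      (((Le.rf (Y_nn k)).mul (a1.mul b1)).mul (Le.rf hR.su.nn))).mono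
      (W_mul (by positivity) (Y_nn k) (nn_mul a1.nn b1.nn) (W_Y (by positivity) k (by linarith))
        (W_mul (by positivity) a1.nn b1.nn a2.le b2.le))
    rw [e]
    refine (m.smul (by positivity)).neg.mono ?_
    rw [hA.m0, hB.m0, one_div_mul_eq_div, div_le_iff₀ (by positivity)]
    have : 125 * k ^ 2 * ((2 * A.coeff 0 + 2 * R.coeff 0 * 1) * (2 * B.coeff 0 + 2 * R.coeff 0 * 1)) ≤
        6000 * (v k / (v k + a) + v k / (v k + b) + v k / (v k + r)) := by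
      nlinarith [sq_nonneg (k * A.coeff 0 - k * B.coeff 0), sq_nonneg (k * A.coeff 0 - k * R.coeff 0),
        sq_nonneg (k * B.coeff 0 - k * R.coeff 0), ba.1, bb.1, br.1]
    rw [mul_assoc, mul_comm]
    exact mul_le_mul this (by linarith) (by positivity) (by linarith)
  · have s := (hA.mul hB).mul hR
    have m := (SU_one.maj.add (PU_U k).su.maj.neg).mul s.su.maj
    rw [← sub_eq_add_neg, PU_one.m0, (PU_U k).m0, s.m0] at m
    refine m.mono ?_
    simp only [not_and_or, not_le] at H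
    rcases H with H | H | H
    · linarith [qa.2 H.le]
    · linarith [qb.2 H.le]
    · linarith [qr.2 H.le]

end Pool.Agent.H.MP_e7950b_an
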