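import Pool.Agent.H.MP_e7950b_an.C

namespace Pool.Agent.H.MP_e7950b_an
open Finset AddMonoidAlgebra

lemma exch {ι : Type*} [Fintype ι] [DecidableEq ι] (s : Finset ℕ) {a : ℕ → ℝ} (a0 : ∀ k, 0 ≤ a k)
    (a1 : ∑ k ∈ s, a k ≤ 1) (J : Finset ι) {j0 : ι} (hj : j0 ∈ J) :
    ∑ ω ∈ Fintype.piFinset fun _ : ι => s, (∏ i, a (ω i)) * (v (ω j0) / ∑ i ∈ J, v (ω i)) ≤
      1 / J.card := by
  have e : ∀ j ∈ J, ∑ ω ∈ Fintype.piFinset fun _ : ι => s, (∏ i, a (ω i)) *
      (v (ω j) / ∑ i ∈ J, v (ω i)) = ∑ ω ∈ Fintype.piFinset fun _ : ι => s, (∏ i, a (ω i)) *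
      (v (ω j0) / ∑ i ∈ J, v (ω i)) := by
    intro j hj'
    refine sum_nbij' (fun ω => ω ∘ Equiv.swap j j0) (fun ω => ω ∘ Equiv.swap j j0)
      (fun ω h => by simp only [Fintype.mem_piFinset] at h ⊢; exact fun i => h _)
      (fun ω h => by simp only [Fintype.mem_piFinset] at h ⊢; exact fun i => h _)
      (fun ω _ => by ext; simp) (fun ω _ => by ext; simp) fun ω _ => ?_
    simp only [Function.comp, Equiv.swap_apply_right]
    rw [Equiv.prod_comp (Equiv.swap j j0) fun i => a (ω i),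
      Equiv.Perm.sum_comp (Equiv.swap j j0) J (fun i => v (ω i)) fun i hi => ?_]
    by_contra h
    exact hi (Equiv.swap_apply_of_ne_of_ne (by rintro rfl; exact h hj') (by rintro rfl; exact h hj))
  have c : (0 : ℝ) < J.card := by exact_mod_cast card_pos.2 ⟨_, hj⟩
  rw [le_div_iff₀' c, ← nsmul_eq_mul, ← sum_const, ← sum_congr rfl e, sum_comm]
  refine le_trans (sum_le_sum (g := fun ω => ∏ i, a (ω i)) fun ω _ => ?_) ?_
  · rw [← mul_sum, ← sum_div]
    exact mul_le_of_le_one_right (prod_nonneg fun _ _ => a0 _) (div_self_le_one _)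
  · rw [← prod_univ_sum (fun _ : ι => s) fun _ k => a k]
    exact prod_le_one (fun _ _ => sum_nonneg fun _ _ => a0 _) fun _ _ => a1

lemma fin3 (s : Finset ℕ) {a : ℕ → ℝ} (a0 : ∀ k, 0 ≤ a k) (a1 : ∑ k ∈ s, a k ≤ 1) (m : ℕ) :
    Maj (((∑ k ∈ s, a k) • 1 - ∑ k ∈ s, a k • U k) * (∑ k ∈ s, a k • U k) ^ (3 * m))
      (18000 / (m + 1)) := by
  have e := prod_univ_sum (fun _ : Option (Fin 3 × Fin m) => s)
    fun i k => a k • (i.elim (1 - U k) fun _ => U k)
  rw [Fintype.prod_option] at e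
  simp only [Option.elim_none, Option.elim_some, prod_const, card_univ, Fintype.card_prod,
    Fintype.card_fin, smul_sub, sum_sub_distrib, ← sum_smul] at e
  rw [e]
  let J : Fin 3 → Finset (Option (Fin 3 × Fin m)) := fun g =>
    insertNone (univ.map ⟨fun i => (g, i), fun _ _ h => (Prod.ext_iff.1 h).2⟩)
  have h := Maj_sum (Fintype.piFinset fun _ : Option (Fin 3 × Fin m) => s)
    (p := fun ω => ∏ i, a (ω i) • (i.elim (1 - U (ω i)) fun _ => U (ω i)))
    (C := fun ω => 6000 * ∑ g, (∏ i, a (ω i)) * (v (ω none) / ∑ i ∈ J g, v (ω i))) fun ω _ => by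
      rw [prod_smul, ← mul_sum, mul_left_comm]
      refine Maj.smul ?_ (prod_nonneg fun _ _ => a0 _)
      rw [Fintype.prod_option, Fintype.prod_prod_type, Fin.prod_univ_three, Fin.sum_univ_three]
      simp only [J, sum_insertNone, sum_map]
      exact det (PU_prod _ _) (PU_prod _ _) (PU_prod _ _) _
  refine h.mono ?_
  rw [← mul_sum, sum_comm]
  have := sum_le_card_nsmul univ _ (1 / (m + 1) : ℝ) fun g _ =>
    (exch s a0 a1 (J g) (j0 := none) (by simp [J])).trans (le_of_eq (by simp [J]))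
  simp only [card_univ, Fintype.card_fin, nsmul_eq_mul] at this
  push_cast at this
  rw [div_eq_mul_one_div]
  linarith

lemma mix_maj (s : Finset ℕ) {a : ℕ → ℝ} (a0 : ∀ k, 0 ≤ a k) (a1 : ∑ k ∈ s, a k ≤ 1) (n : ℕ) :
    Maj ((∑ k ∈ s, a k • U k) ^ n) 1 := by
  have := (Maj_sum s fun k _ => (PU_U k).su.maj.smul (a0 k)).mono (E := 1)
    (by simpa [(PU_U _).m0] using a1)
  simpa using this.pow n

lemma finD (s : Finset ℕ) {a : ℕ → ℝ} (a0 : ∀ k, 0 ≤ a k) (a1 : ∑ k ∈ s, a k ≤ 1) (d n : ℕ) :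
    Maj ((n ^ d : ℝ) • ((∑ k ∈ s, a k • U k) ^ n *
      ((∑ k ∈ s, a k) • 1 - ∑ k ∈ s, a k • U k) ^ d)) ((54000 * d) ^ d) := by
  have h := ((mix_maj s a0 a1 (n % (3 * d))).mul ((fin3 s a0 a1 (n / (3 * d))).pow d)).smul
    (c := n ^ d) (by positivity)
  rw [mul_pow, ← pow_mul, mul_left_comm, ← pow_add, mul_comm,
    show n % (3 * d) + 3 * (n / (3 * d)) * d = n by
      rw [mul_right_comm]; exact Nat.mod_add_div _ _] at h
  refine h.mono ?_
  rcases d.eq_zero_or_pos with rfl | hd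
  · simp
  rw [one_mul, ← mul_pow]
  refine pow_le_pow_left₀ (by positivity) ?_ _
  have : n ≤ 3 * d * (n / (3 * d) + 1) := (Nat.lt_mul_div_succ n (by omega)).le
  have : (n : ℝ) ≤ 3 * d * ((n / (3 * d) : ℕ) + 1) := by exact_mod_cast this
  rw [← mul_div_assoc, div_le_iff₀ (by positivity)]
  linarith

lemma Maj.hl {p : L} {C : ℝ} (h : Maj p C) {g : ℤ → ℝ} {lam : ℝ} (l0 : 0 ≤ lam)
    (hg : ∀ l : ℕ, ∑ y ∈ Icc (-(l : ℤ)) l, |g y| ≤ lam * (2 * l + 1)) : |I g p| ≤ C * lam := by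
  obtain ⟨P, a, b, c⟩ := h
  have h1 : |I g p| ≤ I (fun y => |g y|) P := by
    rw [I_eq, I_eq]
    refine (norm_tsum_le_tsum_norm (sm _ _).norm).trans
      ((sm _ _).norm.tsum_le_tsum (fun y => ?_) (sm _ _))
    rw [Real.norm_eq_abs, abs_mul]
    exact mul_le_mul_of_nonneg_right (b y) (abs_nonneg _)
  have h2 : I (fun y => |g y|) P ≤ ms P * lam := by
    refine a.ind (Q := fun P => I (fun y => |g y|) P ≤ ms P * lam) (by simp [ms])
      fun b hb l q hq => ?_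
    have := mul_le_mul_of_nonneg_left (hg l) hb
    rw [map_add, map_smul, ms_add, ms_smul, ms_Iv, Iv, map_sum]
    simp only [I_T, smul_eq_mul]
    linarith
  exact h1.trans (h2.trans (mul_le_mul_of_nonneg_right c l0))

lemma cover {g : ℤ → ℝ} (g0 : ∀ y, 0 ≤ g y) {lam : ℝ} (l0 : 0 ≤ lam) (r : ℤ → ℕ) (E : Finset ℤ) :
    ∀ F : Finset ℤ, (∀ x ∈ E, Icc (x - r x) (x + r x) ⊆ F ∧
      lam * (2 * r x + 1) ≤ ∑ y ∈ Icc (x - r x) (x + r x), g y) →
      lam * E.card ≤ 2 * ∑ y ∈ F, g y := by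
  induction E using Finset.strongInduction with
  | H E ih =>
    intro F hF
    rcases E.eq_empty_or_nonempty with rfl | hE
    · simpa using sum_nonneg fun y _ => g0 y
    obtain ⟨x, hx, hm⟩ := E.exists_max_image r hE
    have a1 := ih (E \ Icc (x - 2 * r x) (x + 2 * r x)) 
      ((ssubset_iff_of_subset sdiff_subset).2 ⟨x, hx, by simp⟩)
      (F \ Icc (x - r x) (x + r x)) fun z hz => by
        obtain ⟨z1, z2⟩ := mem_sdiff.1 hz
        refine ⟨fun w hw => mem_sdiff.2 ⟨(hF z z1).1 hw, ?_⟩, (hF z z1).2⟩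
        have := hm z z1
        simp only [mem_Icc] at hw z2 ⊢
        omega
    have a2 : E.card ≤ (E \ Icc (x - 2 * r x) (x + 2 * r x)).card + (4 * r x + 1) := by
      have := le_card_sdiff (Icc (x - 2 * r x) (x + 2 * r x)) E
      rw [Int.card_Icc] at this
      omega
    have a3 : (E.card : ℝ) ≤ (E \ Icc (x - 2 * r x) (x + 2 * r x)).card + (4 * r x + 1) := by
      exact_mod_cast a2
    rw [← sum_sdiff (hF x hx).1]
    nlinarith [(hF x hx).2, mul_le_mul_of_nonneg_left a3 l0]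

end Pool.Agent.H.MP_e7950b_an
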