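import Mathlib

namespace Pool.Agent.H.MP_e7950b_an

/-- Convolution on the integers. -/
noncomputable def conv (u w : ℤ → ℝ) (k : ℤ) : ℝ := ∑' j, u j * w (k - j)

/-- The point mass at zero. -/
def delta0 (k : ℤ) : ℝ := if k = 0 then 1 else 0

/-- Convolution powers. -/
noncomputable def cpow (u : ℤ → ℝ) : ℕ → ℤ → ℝ
  | 0 => delta0
  | n + 1 => conv u (cpow u n)

/-- Symmetric probability measure on the integers, non-increasing on the naturals. -/
def SymMono (μ : ℤ → ℝ) : Prop :=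
  (∀ k, 0 ≤ μ k) ∧ HasSum μ 1 ∧ (∀ k, μ (-k) = μ k) ∧ ∀ n : ℕ, μ (n + 1) ≤ μ n

end Pool.Agent.H.MP_e7950b_an
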