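import Pool.Agent.H.MP_e7950b_an.D
import Pool.Agent.H.MP_e7950b_an.Defs
import Pool.Agent.H.MP_1fc4c0_an.B

namespace Pool.Agent.H.MP_e7950b_an
open Finset AddMonoidAlgebra Filter Topology

def Lim (p : ℕ → L) (u : ℤ → ℝ) : Prop := ∃ V : ℤ → ℝ, Summable V ∧
  (∀ N x, |(p N).coeff x| ≤ V x) ∧ ∀ x, Tendsto (fun N => (p N).coeff x) atTop (𝓝 (u x))

lemma Lim.summable {p : ℕ → L} {u : ℤ → ℝ} (h : Lim p u) : Summable u := by
  obtain ⟨V, a, b, c⟩ := h
  exact a.of_norm_bounded fun x => le_of_tendsto' (c x).abs fun N => b N x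

lemma Lim.mul {p q : ℕ → L} {u w : ℤ → ℝ} (h : Lim p u) (g : Lim q w) :
    Lim (fun N => p N * q N) (conv u w) := by
  obtain ⟨V, a, b, c⟩ := h
  obtain ⟨Z, d, e, f⟩ := g
  have V0 : ∀ x, 0 ≤ V x := fun x => (abs_nonneg _).trans (b 0 x)
  have Z0 : ∀ x, 0 ≤ Z x := fun x => (abs_nonneg _).trans (e 0 x)
  have Z1 : ∀ x, Z x ≤ ∑' y, Z y := fun x => d.le_tsum x fun y _ => Z0 y
  have k : ∀ N x y, ‖(p N).coeff y * (q N).coeff (x - y)‖ ≤ V y * Z (x - y) := fun N x y => by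
    rw [Real.norm_eq_abs, abs_mul]; exact mul_le_mul (b _ _) (e _ _) (abs_nonneg _) (V0 _)
  have s : ∀ x, Summable fun y => V y * Z (x - y) := fun x =>
    (a.mul_right _).of_nonneg_of_le (fun y => mul_nonneg (V0 _) (Z0 _))
      fun y => mul_le_mul_of_nonneg_left (Z1 _) (V0 _)
  refine ⟨fun x => ∑' y, V y * Z (x - y), ?_, fun N x => ?_, fun x => ?_⟩
  · simpa using (MP_1fc4c0_an.conv (φ := fun _ => 1) V0 a Z0 d (by simp)).summable
  · rw [co_mul]
    exact tsum_of_norm_bounded (s x).hasSum (k N x)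
  · simp only [co_mul]
    exact tendsto_tsum_of_dominated_convergence (s x) (fun y => (c y).mul (f _))
      (.of_forall fun N => k N x)

lemma Lim_one : Lim (fun _ => 1) delta0 := by
  have e : ∀ x, (1 : L).coeff x = delta0 x := fun x => by rw [← T_zero, co_T, delta0]; simp [eq_comm]
  refine ⟨delta0, (hasSum_ite_eq 0 1).summable, fun N x => ?_, fun x => by simp [e]⟩
  rw [e, abs_of_nonneg]; unfold delta0; positivity

lemma Lim.pow {p : ℕ → L} {u : ℤ → ℝ} (h : Lim p u) (n : ℕ) :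
    Lim (fun N => p N ^ n) (cpow u n) := by
  induction n with
  | zero => simpa [cpow] using Lim_one
  | succ n ih => simpa only [pow_succ', cpow] using h.mul ih

lemma Lim.sub {p q : ℕ → L} {u w : ℤ → ℝ} (h : Lim p u) (g : Lim q w) :
    Lim (fun N => p N - q N) (u - w) := by
  obtain ⟨V, a, b, c⟩ := h
  obtain ⟨Z, d, e, f⟩ := g
  exact ⟨V + Z, a.add d, fun N x => (abs_sub _ _).trans (add_le_add (b N x) (e N x)),
    fun x => (c x).sub (f x)⟩

lemma Lim.smul {p : ℕ → L} {u : ℤ → ℝ} (h : Lim p u) {σ : ℕ → ℝ} (h1 : ∀ N, |σ N| ≤ 1)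
    (h2 : Tendsto σ atTop (𝓝 1)) : Lim (fun N => σ N • p N) u := by
  obtain ⟨V, a, b, c⟩ := h
  refine ⟨V, a, fun N x => ?_, fun x => by simpa using h2.mul (c x)⟩
  simpa [abs_mul] using (mul_le_of_le_one_left (abs_nonneg _) (h1 N)).trans (b N x)

lemma Lim.I {p : ℕ → L} {u : ℤ → ℝ} (h : Lim p u) {g : ℤ → ℝ} {B : ℝ} (hg : ∀ y, |g y| ≤ B) :
    Tendsto (fun N => I g (p N)) atTop (𝓝 (∑' y, u y * g y)) := by
  obtain ⟨V, a, b, c⟩ := h
  simp only [I_eq]
  refine tendsto_tsum_of_dominated_convergence (a.mul_right B) (fun y => (c y).mul_const _)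
    (.of_forall fun N y => ?_)
  rw [Real.norm_eq_abs, abs_mul]
  exact mul_le_mul (b _ _) (hg _) (abs_nonneg _) ((abs_nonneg _).trans (b N y))

lemma Lim.bd {p : ℕ → L} {u : ℤ → ℝ} (h : Lim p u) {c C : ℝ} (hm : ∀ N, Maj (c • p N) C)
    {g : ℤ → ℝ} {B lam : ℝ} (hB : ∀ y, |g y| ≤ B) (l0 : 0 ≤ lam)
    (hg : ∀ l : ℕ, ∑ y ∈ Icc (-(l : ℤ)) l, |g y| ≤ lam * (2 * l + 1)) :
    |c * ∑' y, u y * g y| ≤ C * lam :=
  le_of_tendsto' ((h.I hB).const_mul c).abs fun N => by simpa using (hm N).hl l0 hg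

theorem approx {μ : ℤ → ℝ} (h : SymMono μ) : ∃ (p : ℕ → L) (σ : ℕ → ℝ), Lim p μ ∧
    (∀ N, |σ N| ≤ 1) ∧ Tendsto σ atTop (𝓝 1) ∧ ∀ N d n : ℕ,
      Maj ((n ^ d : ℝ) • (p N ^ n * (σ N • 1 - p N) ^ d)) ((54000 * d) ^ d) := by
  obtain ⟨h0, h1, hs, hm⟩ := h
  let a : ℕ → ℝ := fun k => (2 * k + 1) * (μ k - μ (k + 1))
  have a0 : ∀ k, 0 ≤ a k := fun k => mul_nonneg (by positivity) (sub_nonneg.2 (hm k))
  have ab : ∀ x, μ |x| = μ x := fun x => by rcases abs_choice x with e | e <;> rw [e]; exact hs x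
  have an : Antitone fun n : ℕ => μ n := antitone_nat_of_succ_le fun n => by exact_mod_cast hm n
  have e : ∀ n : ℕ, ∀ x, (∑ l ∈ range n, a l • U l).coeff x = if |x| ≤ n then μ x - μ n else 0 := by
    intro n x
    induction n with
    | zero => simp; rintro rfl; simp
    | succ n ih =>
      rw [sum_range_succ, coeff_add, Finsupp.add_apply, ih, U, smul_smul, mul_one_div,
        mul_div_cancel_left₀ _ (by positivity), coeff_smul, Finsupp.smul_apply, co_Iv]
      push_cast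
      split_ifs with a b b
      · simp
      · omega
      · rw [← ab x, show |x| = n + 1 by omega]; simp
      · simp
  have b : ∀ N x, |(∑ l ∈ range N, a l • U l).coeff x| ≤ μ x := fun N x => by
    rw [e]
    split_ifs with H
    · have := an (show x.natAbs ≤ N by rw [Int.abs_eq_natAbs] at H; omega)
      simp only [Int.natCast_natAbs, ab] at this
      rw [abs_of_nonneg (by linarith)]; linarith [h0 N]
    · simpa using h0 x
  have l : Lim (fun N => ∑ l ∈ range N, a l • U l) μ := by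
    refine ⟨μ, h1.summable, b, fun x => ?_⟩
    have t : Tendsto (fun n : ℕ => μ n) atTop (𝓝 0) :=
      (h1.summable.comp_injective Nat.cast_injective).tendsto_atTop_zero
    have := (tendsto_const_nhds (x := μ x)).sub t
    rw [sub_zero] at this
    refine this.congr' ((eventually_ge_atTop x.natAbs).mono fun N hN => ?_)
    beta_reduce
    rw [e, if_pos (by rw [Int.abs_eq_natAbs]; omega)]
  have m : ∀ N, ∑ k ∈ range N, a k = I (fun _ => 1) (∑ l ∈ range N, a l • U l) := fun N => by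
    rw [map_sum]
    exact sum_congr rfl fun k _ => by rw [← ms, ms_smul, (PU_U k).m0, mul_one]
  have a1 : ∀ N, ∑ k ∈ range N, a k ≤ 1 := fun N => by
    rw [m, I_eq]
    exact hasSum_le (fun x => by simpa using (le_abs_self _).trans (b N x)) (sm _ _).hasSum h1
  refine ⟨_, fun N => ∑ k ∈ range N, a k, l, fun N => ?_, ?_, fun N d n => finD _ a0 (a1 N) d n⟩
  · rw [abs_of_nonneg (sum_nonneg fun k _ => a0 k)]; exact a1 N
  · simpa only [m, mul_one, h1.tsum_eq] using l.I (g := fun _ => 1) (B := 1) (by simp)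

end Pool.Agent.H.MP_e7950b_an
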